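import Pool.Agent.W889.SR.Stm2

/-! Project SR2: transfer of the absence of isolated children. -/

set_option autoImplicit false

namespace Pool.Agent.W143.SR

open Set Ordinal Pool.Agent.W889.SR

theorem forest {A : Type} {r : A → A → Prop} (h : IsTree r) : IsForest r :=
  ⟨h.refl, h.antisymm, h.trans, h.chain⟩

theorem lim_two {l : Ordinal.{0}} (hl : Lim l) {γ : Ordinal.{0}} (h : γ < l) : γ + 2 < l := by
  have h1 := hl.2 _ (hl.2 _ h)
  rwa [add_assoc, one_add_one_eq_two] at h1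

theorem transf : TRANS_stmt := by
  intro L l hl M B s t o o' hs ht hoo hc hyp
  have hsF := forest hs
  have htF := forest ht
  refine ⟨?_, fun b hb γ hγ => ?_⟩
  · obtain ⟨c, hc⟩ := hc
    obtain ⟨d, hd, -⟩ := L.child 0 M B s t hsF htF o o' c (hoo _ (lim_two hl hl.1)) hc
    exact ⟨d, hd⟩
  · obtain ⟨γ', hγ', h2⟩ := hyp γ hγ
    obtain ⟨κ, hκ⟩ : ∃ κ, κ = max γ γ' := ⟨_, rfl⟩
    have hκl : κ < l := by rw [hκ]; exact max_lt hγ hγ'
    have h1 : γ ≤ κ := by rw [hκ]; exact le_max_left _ _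
    have h1' : γ' ≤ κ := by rw [hκ]; exact le_max_right _ _
    have hoo2 := hoo _ (lim_two hl hκl)
    obtain ⟨x, hx, hbx⟩ := L.child κ B M t s htF hsF o' o b (L.symm _ _ _ _ _ _ _ hoo2) hb
    obtain ⟨x', hx', hxx, hn⟩ := h2 x hx
    obtain ⟨b', hb', hxb⟩ := L.child κ M B s t hsF htF o o' x' hoo2 hx'
    refine ⟨b', hb', ?_, fun hcl => hn ?_⟩
    · have e1 := L.mono _ _ h1 _ _ _ _ _ _ hbx
      have e2 := L.mono _ _ h1 _ _ _ _ _ _ hxb
      exact L.trans _ _ _ _ _ _ _ _ _ _ (L.trans _ _ _ _ _ _ _ _ _ _ e1 hxx) e2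
    · have e1 := L.mono _ _ h1' _ _ _ _ _ _ hbx
      have e2 := L.mono _ _ h1' _ _ _ _ _ _ hxb
      have e3 := hcl γ' hγ'
      exact L.trans _ _ _ _ _ _ _ _ _ _ (L.trans _ _ _ _ _ _ _ _ _ _ (L.symm _ _ _ _ _ _ _ e1) e3)
        (L.symm _ _ _ _ _ _ _ e2)

end Pool.Agent.W143.SR
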